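import Pool.Agent.Helper14.TK.StA

/-!
# Project T3K, part A, module NEXT: the old and the new part are independent
-/

set_option autoImplicit false

namespace Pool.Agent.Helper34.TA

open Pool.Agent.Helper14.CV (Homog EqC act Tl)
open Pool.Agent.Helper14.W3 Pool.Agent.Helper78.W3
open Pool.Agent.Helper14.T3 Pool.Agent.Helper14.TK

variable {D : ℕ} {s : ℤ} {dd : ℕ → ℕ}

/-- The image of the twisted values on the symbols of level `3^n`. -/
private noncomputable def V (D n : ℕ) : Submodule ℂ (ℕ → ℕ → ℂ) := (XS3 n).map (evT D)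

/-- The image of the twisted values on the new symbols of level `3^n`. -/
private noncomputable def W (D : ℕ) (s : ℤ) (n : ℕ) : Submodule ℂ (ℕ → ℕ → ℂ) :=
  (NSS3 n (kw s n) s).map (evT D)

private theorem V_le (h : Hf D s dd) {n : ℕ} (hn : 3 ≤ n) : V D n ≤ V D (n - 1) ⊔ W D s n := by
  rintro x ⟨G, hG, rfl⟩
  obtain ⟨G0, G1, h0, h1, h2⟩ := h.dec n G hn hG
  exact Submodule.mem_sup.mpr ⟨evT D G0, ⟨G0, h0, rfl⟩, evT D G1, ⟨G1, h1, rfl⟩, h2.symm⟩

private theorem W_bound (h : Hf D s dd) {n : ℕ} (hn : 3 ≤ n) :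
    Module.Finite ℂ (W D s n) ∧ Module.finrank ℂ (W D s n) ≤ dd n ∧
      ∀ G : ℤ → ℤ → ℂ, NewSym3S n (kw s n) s G → evT D G = 0 → ¬ EqC G 0 →
        Module.finrank ℂ (W D s n) + 1 ≤ dd n := by
  obtain ⟨Θ, hΘ⟩ := h.ub n hn
  set f : NSS3 n (kw s n) s →ₗ[ℂ] (ℕ → ℕ → ℂ) := evT D ∘ₗ (NSS3 n (kw s n) s).subtype with hf
  have hker : LinearMap.ker Θ ≤ LinearMap.ker f := by
    intro G hG
    have h1 : EqC (G : ℤ → ℤ → ℂ) 0 := hΘ G (LinearMap.mem_ker.mp hG)
    refine LinearMap.mem_ker.mpr ?_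
    change evT D (G : ℤ → ℤ → ℂ) = 0
    rw [evT_congr h.d0 h1]
    exact map_zero (evT D)
  set g : LinearMap.range Θ →ₗ[ℂ] (ℕ → ℕ → ℂ) :=
    (Submodule.liftQ (LinearMap.ker Θ) f hker) ∘ₗ (Θ.quotKerEquivRange.symm).toLinearMap with hg
  have hgΘ : ∀ G : NSS3 n (kw s n) s, g ⟨Θ G, LinearMap.mem_range_self Θ G⟩ = f G := by
    intro G
    have h1 : Θ.quotKerEquivRange.symm ⟨Θ G, LinearMap.mem_range_self Θ G⟩ =
        (LinearMap.ker Θ).mkQ G := by
      rw [LinearEquiv.symm_apply_eq]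
      rfl
    change (Submodule.liftQ (LinearMap.ker Θ) f hker)
      (Θ.quotKerEquivRange.symm ⟨Θ G, LinearMap.mem_range_self Θ G⟩) = f G
    rw [h1]
    rfl
  have hrange : W D s n = LinearMap.range g := by
    ext x
    constructor
    · rintro ⟨G, hG, rfl⟩
      exact ⟨⟨Θ ⟨G, hG⟩, LinearMap.mem_range_self Θ _⟩, hgΘ ⟨G, hG⟩⟩
    · rintro ⟨⟨y, G, rfl⟩, rfl⟩
      exact ⟨(G : ℤ → ℤ → ℂ), G.2, (hgΘ G).symm⟩
  have hfin : Module.Finite ℂ (W D s n) := by
    rw [hrange]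
    infer_instance
  have hrk := LinearMap.finrank_range_add_finrank_ker g
  have hle : Module.finrank ℂ (LinearMap.range Θ) ≤ dd n := by
    have := Submodule.finrank_le (LinearMap.range Θ)
    simpa using this
  refine ⟨hfin, ?_, ?_⟩
  · rw [hrange]
    omega
  · intro G hG he hne
    have h1 : Θ ⟨G, hG⟩ ≠ 0 := fun h0 => hne (hΘ ⟨G, hG⟩ h0)
    have h2 : (⟨Θ ⟨G, hG⟩, LinearMap.mem_range_self Θ _⟩ : LinearMap.range Θ) ∈
        LinearMap.ker g := by
      rw [LinearMap.mem_ker, hgΘ ⟨G, hG⟩]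
      exact he
    have h5 : Nontrivial (LinearMap.ker g) := by
      refine ⟨⟨⟨_, h2⟩, 0, fun h0 => h1 ?_⟩⟩
      have h4 := congrArg Subtype.val h0
      exact congrArg Subtype.val h4
    have h3 : 0 < Module.finrank ℂ (LinearMap.ker g) :=
      Module.finrank_pos (R := ℂ) (M := LinearMap.ker g)
    rw [hrange]
    omega

private theorem DDg_succ (m : ℕ) : DDg dd (m + 1) = DDg dd m + dd (m + 1) := by
  unfold DDg
  rw [Finset.sum_range_succ]

private theorem V_bound (h : Hf D s dd) (n : ℕ) (hn : 2 ≤ n) :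
    Module.Finite ℂ (V D n) ∧ Module.finrank ℂ (V D n) ≤ DDg dd n := by
  induction n, hn using Nat.le_induction with
  | base =>
    have hbot : V D 2 = ⊥ := by
      rw [eq_bot_iff]
      rintro x ⟨G, hG, rfl⟩
      exact (Submodule.mem_bot ℂ).2 (h.bas G hG)
    rw [hbot]
    exact ⟨inferInstance, by simp⟩
  | succ m hm ih =>
    obtain ⟨ih1, ih2⟩ := ih
    have hm3 : 3 ≤ m + 1 := by omega
    obtain ⟨w1, w2, _⟩ := W_bound h hm3
    have hle := V_le h hm3
    rw [Nat.add_sub_cancel] at hle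
    have hfin : Module.Finite ℂ (V D m ⊔ W D s (m + 1) : Submodule ℂ (ℕ → ℕ → ℂ)) :=
      Submodule.finiteDimensional_sup _ _
    refine ⟨Submodule.finiteDimensional_of_le hle, ?_⟩
    have h1 := Submodule.finrank_mono hle
    have h2 := Submodule.finrank_add_le_finrank_add_finrank (V D m) (W D s (m + 1))
    have h3 := DDg_succ (dd := dd) m
    omega

/-- The lower bound from an integral family. -/
private theorem lower (hUnb : Unb3) (h : Hf D s dd) {m : ℕ} (hm : 3 ≤ m) (hfin : Module.Finite ℂ (V D m)) :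
    DDg dd m ≤ Module.finrank ℂ (V D m) := by
  obtain ⟨G, ij, hG, hdet⟩ := h.fam m hm
  have hH : ∀ k, Sym3 0 m (fun p q => ((G k (3 ^ 0 * p) q : ℤ) : ℂ)) := by
    intro k
    have h1 := (hUnb D 0 m (G k) h.d0 (hG k)).1
    rwa [zero_add] at h1
  have hev : ∀ k i j, evT D (fun p q => ((G k (3 ^ 0 * p) q : ℤ) : ℂ)) i j = ((evTb D 1 (G k) i j : ℤ) : ℂ) := by
    intro k i j
    have h1 := (hUnb D 0 m (G k) h.d0 (hG k)).2 i j
    rwa [show ((3 : ℤ) ^ 0) = 1 from pow_zero 3] at h1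
  have hdetC : (Matrix.of fun k l => ((evTb D 1 (G k) (ij l).1 (ij l).2 : ℤ) : ℂ)).det ≠ 0 := by
    have e : (Matrix.of fun k l => ((evTb D 1 (G k) (ij l).1 (ij l).2 : ℤ) : ℂ)) =
        (Int.castRingHom ℂ).mapMatrix (Matrix.of fun k l => evTb D 1 (G k) (ij l).1 (ij l).2) := rfl
    rw [e, ← RingHom.map_det]
    intro h0
    apply hdet
    have h1 : Matrix.det (Matrix.of fun k l => evTb D 1 (G k) (ij l).1 (ij l).2) = 0 := Int.cast_eq_zero.1 h0
    rw [h1]
    exact dvd_zero 3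
  have hrows := Matrix.linearIndependent_rows_of_det_ne_zero hdetC
  let L : (ℕ → ℕ → ℂ) →ₗ[ℂ] (Fin (DDg dd m) → ℂ) :=
    { toFun := fun x l => x (ij l).1 (ij l).2
      map_add' := fun _ _ => rfl
      map_smul' := fun _ _ => rfl }
  have hli : LinearIndependent ℂ (fun k => evT D (fun p q => ((G k (3 ^ 0 * p) q : ℤ) : ℂ))) := by
    refine LinearIndependent.of_comp L ?_
    have e : (L ∘ fun k => evT D (fun p q => ((G k (3 ^ 0 * p) q : ℤ) : ℂ))) =
        (Matrix.of fun k l => ((evTb D 1 (G k) (ij l).1 (ij l).2 : ℤ) : ℂ)).row := by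
      funext k l
      exact hev k (ij l).1 (ij l).2
    rw [e]
    exact hrows
  have hli' : LinearIndependent ℂ (fun k => (⟨evT D (fun p q => ((G k (3 ^ 0 * p) q : ℤ) : ℂ)),
      ⟨_, hH k, rfl⟩⟩ : V D m)) := by
    refine LinearIndependent.of_comp (V D m).subtype ?_
    exact hli
  have h4 := hli'.fintype_card_le_finrank
  rwa [Fintype.card_fin] at h4

/-- NEXT. -/
theorem hNEXT : StNEXT := by
  intro hUnb D s dd h m G0 G1 hm hG0 hG1 hev
  by_contra hne
  have he : evT D G1 = -evT D G0 := eq_neg_of_add_eq_zero_right hev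
  obtain ⟨w1, w2, w3⟩ := W_bound h (n := m) hm
  obtain ⟨v1, v2⟩ := V_bound h (m - 1) (by omega)
  have hle := V_le h (n := m) hm
  have hfin : Module.Finite ℂ (V D (m - 1) ⊔ W D s m : Submodule ℂ (ℕ → ℕ → ℂ)) :=
    Submodule.finiteDimensional_sup _ _
  have hfinV : Module.Finite ℂ (V D m) := Submodule.finiteDimensional_of_le hle
  have h1 := Submodule.finrank_mono hle
  have h2 := Submodule.finrank_sup_add_finrank_inf_eq (V D (m - 1)) (W D s m)
  have h3 : DDg dd m = DDg dd (m - 1) + dd m := by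
    obtain ⟨k, rfl⟩ : ∃ k, m = k + 1 := ⟨m - 1, by omega⟩
    rw [Nat.add_sub_cancel]
    exact DDg_succ k
  have h4 := lower hUnb h hm hfinV
  by_cases h0 : evT D G1 = 0
  · have hw := w3 G1 hG1 h0 hne
    omega
  · have hmem : evT D G1 ∈ V D (m - 1) ⊓ W D s m := by
      refine ⟨?_, ⟨G1, hG1, rfl⟩⟩
      rw [he]
      exact (V D (m - 1)).neg_mem ⟨G0, hG0, rfl⟩
    have hnt : Nontrivial (V D (m - 1) ⊓ W D s m : Submodule ℂ (ℕ → ℕ → ℂ)) :=
      ⟨⟨⟨_, hmem⟩, 0, fun h => h0 (congrArg Subtype.val h)⟩⟩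
    have hf : Module.Finite ℂ (V D (m - 1) ⊓ W D s m : Submodule ℂ (ℕ → ℕ → ℂ)) :=
      Submodule.finiteDimensional_of_le inf_le_left
    have h5 : 0 < Module.finrank ℂ (V D (m - 1) ⊓ W D s m : Submodule ℂ (ℕ → ℕ → ℂ)) :=
      Module.finrank_pos
    omega

end Pool.Agent.Helper34.TA
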